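import Pool.Agent.Helper89.GP.GoalsB

/-!
# The exchange of two adjacent elements
-/

namespace Pool.Agent.Helper35.GP

open Finset Pool.Agent.Helper89.GP

variable {n : ℕ} {R : Fin n → Fin n → Prop}

/-- The exchange of `u` and `v` is a bijection between two events. -/
theorem Pr_exch {u v : Fin n} (h : Inc R u v) {p q : Equiv.Perm (Fin n) → Prop}
    (h1 : ∀ σ ∈ LX R, p σ → po σ v = po σ u + 1 ∧ q ((Equiv.swap u v).trans σ))
    (h2 : ∀ σ ∈ LX R, q σ → po σ u = po σ v + 1 ∧ p ((Equiv.swap u v).trans σ)) :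
    Pr R p = Pr R q := by
  classical
  rw [Pr_def, Pr_def]
  have hc : ((LX R).filter p).card = ((LX R).filter q).card := by
    apply Finset.card_bij' (fun σ _ => (Equiv.swap u v).trans σ)
      (fun σ _ => (Equiv.swap u v).trans σ)
    · intro σ hσ
      rw [mem_filter] at hσ ⊢
      obtain ⟨h3, h4⟩ := h1 σ hσ.1 hσ.2
      exact ⟨swap_mem hσ.1 h3 h.not_rel, h4⟩
    · intro σ hσ
      rw [mem_filter] at hσ ⊢
      obtain ⟨h3, h4⟩ := h2 σ hσ.1 hσ.2
      refine ⟨?_, h4⟩
      rw [Equiv.swap_comm]
      exact swap_mem hσ.1 h3 h.symm.not_rel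
    · intro σ _
      ext a
      simp
    · intro σ _
      ext a
      simp
  rw [hc]

theorem po_exch_left (σ : Equiv.Perm (Fin n)) (u v : Fin n) :
    po ((Equiv.swap u v).trans σ) u = po σ v := by
  rw [po_swap, Equiv.swap_apply_left]

theorem po_exch_right (σ : Equiv.Perm (Fin n)) (u v : Fin n) :
    po ((Equiv.swap u v).trans σ) v = po σ u := by
  rw [po_swap, Equiv.swap_apply_right]

theorem po_exch_of_ne (σ : Equiv.Perm (Fin n)) {u v w : Fin n} (h1 : w ≠ u) (h2 : w ≠ v) :
    po ((Equiv.swap u v).trans σ) w = po σ w := by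
  rw [po_swap, Equiv.swap_apply_of_ne_of_ne h1 h2]

theorem adj : AdjStmt := by
  intro n R u v h
  unfold bq
  apply Pr_exch h
  · intro σ _ hp
    rw [po_exch_left, po_exch_right]
    omega
  · intro σ _ hp
    rw [po_exch_left, po_exch_right]
    omega

theorem swt : SwtStmt := by
  intro n R u v w h hu hv
  refine ⟨?_, ?_, ?_, ?_⟩
  · unfold ra
    apply Pr_exch h
    · intro σ _ hp
      rw [po_exch_left, po_exch_right, po_exch_of_ne σ hu hv]
      omega
    · intro σ _ hp
      rw [po_exch_left, po_exch_right, po_exch_of_ne σ hu hv]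
      omega
  · unfold rb
    apply Pr_exch h
    · intro σ _ hp
      rw [po_exch_left, po_exch_right, po_exch_of_ne σ hu hv]
      omega
    · intro σ _ hp
      rw [po_exch_left, po_exch_right, po_exch_of_ne σ hu hv]
      omega
  · unfold tt
    apply Pr_exch h
    · intro σ _ hp
      rw [po_exch_left, po_exch_right, po_exch_of_ne σ hu hv]
      omega
    · intro σ _ hp
      rw [po_exch_left, po_exch_right, po_exch_of_ne σ hu hv]
      omega
  · unfold tt
    apply Pr_exch h
    · intro σ _ hp
      rw [po_exch_left, po_exch_right, po_exch_of_ne σ hu hv]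
      omega
    · intro σ _ hp
      rw [po_exch_left, po_exch_right, po_exch_of_ne σ hu hv]
      omega

end Pool.Agent.Helper35.GP
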