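import Pool.Agent.Helper72.GP.Goals

/-!
# Project GP: packet CII
-/

set_option autoImplicit false

open Finset Polynomial
open scoped Polynomial.Bivariate Classical

namespace Pool.Agent.Helper35.GP

open Pool.Agent.Helper72.GP

lemma card_le_fib {X S : Type} [Finite X] [Finite S] (f : X → S) (k : ℕ)
    (h : ∀ s, Nat.card {x // f x = s} ≤ k) : Nat.card X ≤ Nat.card S * k := by
  have : Fintype S := Fintype.ofFinite S
  rw [← Nat.card_congr (Equiv.sigmaFiberEquiv f), Nat.card_sigma]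
  refine (Finset.sum_le_sum (fun s _ => h s)).trans ?_
  rw [Finset.sum_const, smul_eq_mul, Finset.card_univ, Nat.card_eq_fintype_card]

lemma gd_le {N : ℕ} {x z : Pt} (hB : Box N {x, z}) (hxz : x ≠ z) :
    0 < gd x z ∧ gd x z ≤ N := by
  have hx := hB x (by simp)
  have hz := hB z (by simp)
  have hne : x.1 - z.1 ≠ 0 ∨ x.2 - z.2 ≠ 0 := by
    by_contra hcon
    push Not at hcon
    apply hxz
    refine Prod.ext ?_ ?_
    · have := hcon.1; linarith
    · have := hcon.2; linarith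
  unfold gd
  constructor
  · rcases hne with h | h
    · exact Int.gcd_pos_of_ne_zero_left _ h
    · exact Int.gcd_pos_of_ne_zero_right _ h
  · rcases hne with h | h
    · have h1 : ((Int.gcd (x.1 - z.1) (x.2 - z.2) : ℕ) : ℤ) ∣ x.1 - z.1 := Int.gcd_dvd_left _ _
      have h2 := Int.le_of_dvd (abs_pos.2 h) ((dvd_abs _ _).2 h1)
      have h3 : |x.1 - z.1| ≤ N := by
        rw [abs_le]
        constructor <;> linarith [hx.1, hx.2.1, hz.1, hz.2.1]
      exact_mod_cast h2.trans h3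
    · have h1 : ((Int.gcd (x.1 - z.1) (x.2 - z.2) : ℕ) : ℤ) ∣ x.2 - z.2 := Int.gcd_dvd_right _ _
      have h2 := Int.le_of_dvd (abs_pos.2 h) ((dvd_abs _ _).2 h1)
      have h3 : |x.2 - z.2| ≤ N := by
        rw [abs_le]
        constructor <;> linarith [hx.2.2.1, hx.2.2.2, hz.2.2.1, hz.2.2.2]
      exact_mod_cast h2.trans h3

lemma ne_mod {N R : ℕ} {x z : Pt} (hB : Box N {x, z}) (hxz : x ≠ z) (hNR : N < R) :
    ((x.1 : ZMod R) ≠ z.1 ∨ (x.2 : ZMod R) ≠ z.2) := by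
  by_contra hcon
  push Not at hcon
  obtain ⟨h1, h2⟩ := hcon
  have h3 : ((x.1 - z.1 : ℤ) : ZMod R) = 0 := by push_cast; rw [h1, sub_self]
  have h4 : ((x.2 - z.2 : ℤ) : ZMod R) = 0 := by push_cast; rw [h2, sub_self]
  have h5 := (ZMod.intCast_zmod_eq_zero_iff_dvd _ _).1 h3
  have h6 := (ZMod.intCast_zmod_eq_zero_iff_dvd _ _).1 h4
  have h7 : (R : ℤ) ∣ gd x z := Int.dvd_coe_gcd h5 h6
  have h8 := gd_le hB hxz
  have h9 := Nat.le_of_dvd h8.1 (by exact_mod_cast h7)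
  omega

lemma lin_mid {R a b : ℕ} (hR : R.Prime) (hab : 0 < a + b) (habR : a + b < R) {x y z : Pt}
    (h1 : (b : ℤ) * x.1 + a * z.1 = (a + b) * y.1)
    (h2 : (b : ℤ) * x.2 + a * z.2 = (a + b) * y.2) (θ : ZMod R × ZMod R × ZMod R) :
    lin θ y = ((a + b : ℕ) : ZMod R)⁻¹ * ((b : ZMod R) * lin θ x + (a : ZMod R) * lin θ z) := by
  have : Fact R.Prime := ⟨hR⟩
  have hm : ((a + b : ℕ) : ZMod R) ≠ 0 := by
    intro h0
    rw [ZMod.natCast_eq_zero_iff] at h0
    have := Nat.le_of_dvd hab h0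
    omega
  have h1' := congrArg (fun t : ℤ => (t : ZMod R)) h1
  have h2' := congrArg (fun t : ℤ => (t : ZMod R)) h2
  push_cast at h1' h2'
  rw [eq_inv_mul_iff_mul_eq₀ hm]
  unfold lin
  push_cast
  linear_combination (-θ.1) * h1' - θ.2.1 * h2'

theorem cii (hFIB : FIB) (hDEPC : DEPC) (hTRI : TRI) : CII := by
  intro N H R M L e H2 a b x y z hP hT hxz hB
  obtain ⟨hg0, hgN⟩ := gd_le hB hxz
  have hdvd := (hTRI.2.1 a b x y z hT).1
  have hmN : a + b ≤ N := (Nat.le_of_dvd hg0 hdvd).trans hgN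
  obtain ⟨ha, hb, hcop, he1, he2⟩ := hT
  have hLR : L ≤ R := (Nat.le_mul_of_pos_left L hP.hH).trans hP.hLR
  have hNL := hP.hNL
  have habR : a + b < R := by omega
  have hNR : N < R := by omega
  have : NeZero R := ⟨hP.hR.ne_zero⟩
  have : NeZero M := ⟨hP.hM.ne_zero⟩
  set S := {p : (Fin 8 → ZMod R) × (Fin 8 → ZMod R) // (∀ i, (p.1 i).val < L) ∧ (∀ i, (p.2 i).val < L) ∧
    (∀ i, (((a + b : ℕ) : ZMod R)⁻¹ * ((b : ZMod R) * p.1 i + (a : ZMod R) * p.2 i)).val < L) ∧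
    Dep (fun i => (p.1 i).val)
      (fun i => (((a + b : ℕ) : ZMod R)⁻¹ * ((b : ZMod R) * p.1 i + (a : ZMod R) * p.2 i)).val)
      (fun i => (p.2 i).val) ∧
    ¬ Kz a b (fun i => (p.1 i).val)
      (fun i => (((a + b : ℕ) : ZMod R)⁻¹ * ((b : ZMod R) * p.1 i + (a : ZMod R) * p.2 i)).val)
      (fun i => (p.2 i).val)} with hS
  have hcS : Nat.card S ≤ L ^ 8 * (2 * (a + b) + 1) ^ 8 * (2 * L) :=
    hDEPC R L a b hP.hR hLR ha hb habR
  set X := {ω : O1 R × O2 M // Sel L (e ^ 2) ω x ∧ Sel L (e ^ 2) ω y ∧ Sel L (e ^ 2) ω z ∧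
    Dep (UU ω.1 x) (UU ω.1 y) (UU ω.1 z) ∧ ¬ Kz a b (UU ω.1 x) (UU ω.1 y) (UU ω.1 z)} with hX
  have hmid : ∀ ω : O1 R, UU ω y = fun i => (((a + b : ℕ) : ZMod R)⁻¹ *
      ((b : ZMod R) * lin (ω i) x + (a : ZMod R) * lin (ω i) z)).val := by
    intro ω
    funext i
    unfold UU
    rw [lin_mid hP.hR (by omega) habR he1 he2]
  have hfib : Nat.card X ≤ Nat.card S * (R ^ 8 * M ^ 9) := by
    refine card_le_fib (fun ω : X => (⟨(fun i => lin (ω.1.1 i) x, fun i => lin (ω.1.1 i) z),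
      ω.2.1.1, ω.2.2.2.1.1, fun i => ?_, ?_, ?_⟩ : S)) _ ?_
    · have h1 := ω.2.2.1.1 i
      rw [hmid] at h1
      exact h1
    · have h1 := ω.2.2.2.2.1
      rw [hmid] at h1
      exact h1
    · have h1 := ω.2.2.2.2.2
      rw [hmid] at h1
      exact h1
    · intro s
      have h1 := hFIB R hP.hR x z (ne_mod hB hxz hNR) s.1.1 s.1.2
      have h2 : Nat.card (O2 M) = M ^ 9 := by
        simp only [O2, Nat.card_eq_fintype_card, Fintype.card_prod, ZMod.card, Fintype.card_fun,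
          Fintype.card_fin]
        ring
      rw [← h2]
      refine le_trans ?_ (Nat.mul_le_mul_right _ h1)
      rw [← Nat.card_prod]
      refine Nat.card_le_card_of_injective (fun ω => (⟨ω.1.1.1, fun i => ?_, fun i => ?_⟩,
        ω.1.1.2)) ?_
      · have h3 := congrArg (fun t : S => t.1.1 i) ω.2
        exact h3
      · have h3 := congrArg (fun t : S => t.1.2 i) ω.2
        exact h3
      · intro ω ω' h3
        apply Subtype.ext
        apply Subtype.ext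
        apply Prod.ext
        · exact congrArg (fun t => t.1.1) h3
        · exact congrArg (fun t => t.2) h3
  have h5 : Nat.card X ≤ R ^ 17 * M ^ 9 * (2 * (6 * N) ^ 8) := by
    refine hfib.trans ((Nat.mul_le_mul_right _ hcS).trans ?_)
    have h6 : 2 * (a + b) + 1 ≤ 6 * N := by omega
    calc L ^ 8 * (2 * (a + b) + 1) ^ 8 * (2 * L) * (R ^ 8 * M ^ 9)
        ≤ R ^ 8 * (6 * N) ^ 8 * (2 * R) * (R ^ 8 * M ^ 9) := by gcongr
      _ = R ^ 17 * M ^ 9 * (2 * (6 * N) ^ 8) := by ring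
  have hR0 : (R : ℝ) ≠ 0 := by exact_mod_cast hP.hR.ne_zero
  have h7 : (R : ℝ) ^ 24 * M ^ 9 * (2 * (6 * N) ^ 8 / R ^ 7) =
      (R : ℝ) ^ 17 * M ^ 9 * (2 * (6 * N) ^ 8) := by
    field_simp
  rw [h7]
  exact_mod_cast h5

end Pool.Agent.Helper35.GP
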