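import Pool.Agent.Helper89.GP.Basic
import Pool.Agent.Helper89.GP.GoalsA

/-!
# Log-concavity of the density, from the inequality for short intervals
-/

namespace Pool.Agent.Helper35.GP

open Finset MeasureTheory Filter Topology Pool.Agent.Helper89.GP

noncomputable section

variable {n : ℕ} {R : Fin n → Fin n → Prop} {u v : Fin n}

theorem bq_nonneg (k : ℕ) : 0 ≤ bq R u v k := Pr_nonneg _

theorem Ff_nonneg {t : ℝ} (ht : 0 ≤ t) : 0 ≤ Ff R u v t := by
  unfold Ff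
  exact Finset.sum_nonneg fun k _ =>
    div_nonneg (mul_nonneg (bq_nonneg k) (pow_nonneg ht k)) (Nat.cast_nonneg _)

theorem Ff_continuous : Continuous (Ff R u v) := by
  unfold Ff
  fun_prop

theorem Gd_nonneg (t : ℝ) : 0 ≤ Gd R u v t := by
  unfold Gd
  split_ifs with h
  · exact mul_nonneg (Real.exp_nonneg _) (Ff_nonneg h)
  · exact mul_nonneg (Real.exp_nonneg _) (Ff_nonneg (by linarith))

/-- On a short interval to the right of `p` the density is continuous. -/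
theorem Gd_right (p : ℝ) : ∃ g : ℝ → ℝ, Continuous g ∧ g p = Gd R u v p ∧
    ∃ δ : ℝ, 0 < δ ∧ ∀ r, p ≤ r → r < p + δ → Gd R u v r = g r := by
  rcases le_or_gt 0 p with hp | hp
  · refine ⟨fun t => Real.exp (-t) * Ff R u v t, ?_, ?_, 1, one_pos, ?_⟩
    · exact (Real.continuous_exp.comp continuous_neg).mul Ff_continuous
    · simp [Gd, hp]
    · intro r hr _
      have : 0 ≤ r := hp.trans hr
      simp [Gd, this]
  · refine ⟨fun t => Real.exp t * Ff R v u (-t), ?_, ?_, -p, by linarith, ?_⟩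
    · exact Real.continuous_exp.mul (Ff_continuous.comp continuous_neg)
    · simp [Gd, not_le.2 hp]
    · intro r _ hr
      have : ¬ 0 ≤ r := by linarith
      simp [Gd, this]

theorem Gd_limit (p : ℝ) :
    Tendsto (fun ε : ℝ => ε⁻¹ * ∫ r in p..(p + ε), Gd R u v r) (𝓝[>] 0) (𝓝 (Gd R u v p)) := by
  obtain ⟨g, hg, hgp, δ, hδ, hG⟩ := Gd_right (R := R) (u := u) (v := v) p
  have h1 : HasDerivAt (fun x => ∫ r in p..x, g r) (g p) p :=
    intervalIntegral.integral_hasDerivAt_right (hg.intervalIntegrable _ _)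
      hg.aestronglyMeasurable.stronglyMeasurableAtFilter hg.continuousAt
  have h2 := hasDerivAt_iff_tendsto_slope_zero.1 h1
  have h3 : Tendsto (fun ε : ℝ => ε⁻¹ • ((∫ r in p..(p + ε), g r) - ∫ r in p..p, g r)) (𝓝[>] 0)
      (𝓝 (g p)) := h2.mono_left (nhdsWithin_mono _ fun x hx => ne_of_gt hx)
  rw [← hgp]
  refine h3.congr' ?_
  have h4 : ∀ᶠ ε : ℝ in 𝓝[>] 0, ε < δ := by
    have : Set.Iio δ ∈ 𝓝 (0 : ℝ) := Iio_mem_nhds hδ
    exact mem_nhdsWithin_of_mem_nhds this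
  filter_upwards [h4, self_mem_nhdsWithin] with ε h5 h6
  have h7 : (0 : ℝ) < ε := h6
  rw [intervalIntegral.integral_same, sub_zero, smul_eq_mul]
  congr 1
  apply intervalIntegral.integral_congr
  intro r hr
  rw [Set.uIcc_of_le (by linarith)] at hr
  exact (hG r hr.1 (by linarith [hr.2])).symm

theorem lcg (h : SmoStmt) : LcgStmt := by
  intro n R u v p q l hne huv hl0 hl1
  have hp : Tendsto (fun ε : ℝ => (ε⁻¹ * ∫ r in p..(p + ε), Gd R u v r) ^ (1 - l)) (𝓝[>] 0)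
      (𝓝 ((Gd R u v p) ^ (1 - l))) :=
    (Gd_limit p).rpow_const (Or.inr (by linarith))
  have hq : Tendsto (fun ε : ℝ => (ε⁻¹ * ∫ r in q..(q + ε), Gd R u v r) ^ l) (𝓝[>] 0)
      (𝓝 ((Gd R u v q) ^ l)) :=
    (Gd_limit q).rpow_const (Or.inr hl0.le)
  have hm := Gd_limit (R := R) (u := u) (v := v) ((1 - l) * p + l * q)
  refine le_of_tendsto_of_tendsto (hp.mul hq) hm ?_
  filter_upwards [self_mem_nhdsWithin] with ε h6
  have h7 : (0 : ℝ) < ε := h6
  have h8 := h n R u v p q l ε hne huv hl0 hl1 h7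
  have hI : ∀ x : ℝ, 0 ≤ ∫ r in x..(x + ε), Gd R u v r := fun x =>
    intervalIntegral.integral_nonneg (by linarith) fun r _ => Gd_nonneg r
  have hi : (0 : ℝ) ≤ ε⁻¹ := (inv_pos.2 h7).le
  rw [Real.mul_rpow hi (hI p), Real.mul_rpow hi (hI q)]
  have h9 : (ε⁻¹ : ℝ) ^ (1 - l) * ε⁻¹ ^ l = ε⁻¹ := by
    rw [← Real.rpow_add (inv_pos.2 h7)]
    simp
  calc (ε⁻¹ : ℝ) ^ (1 - l) * (∫ r in p..(p + ε), Gd R u v r) ^ (1 - l) *
        (ε⁻¹ ^ l * (∫ r in q..(q + ε), Gd R u v r) ^ l)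
      = (ε⁻¹ ^ (1 - l) * ε⁻¹ ^ l) * ((∫ r in p..(p + ε), Gd R u v r) ^ (1 - l) *
        (∫ r in q..(q + ε), Gd R u v r) ^ l) := by ring
    _ ≤ ε⁻¹ * ∫ r in ((1 - l) * p + l * q)..((1 - l) * p + l * q + ε), Gd R u v r := by
        rw [h9]
        exact mul_le_mul_of_nonneg_left h8 hi

end

end Pool.Agent.Helper35.GP
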